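import Pool.Agent.V11330.BMGeneric

open Set Filter Topology MeasureTheory ProbabilityTheory
open scoped NNReal ENNReal

namespace Pool.Agent.Results.MP_367e1f_pr.SpanRegular

/-- The span set on `[0,1]` of a path `f : [0,∞) → ℝ`: all the lengths `t - s` of time intervals
`[s,t] ⊆ [0,1]` with `f s = f t`. -/
def spanSet (f : ℝ≥0 → ℝ) : Set ℝ :=
  {u | ∃ s t : ℝ≥0, s ≤ t ∧ t ≤ 1 ∧ f s = f t ∧ u = (t : ℝ) - s}

/-- Almost surely the span set of Brownian motion on `[0,1]` is the closure of its interior. -/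
theorem result {Ω : Type*} [MeasurableSpace Ω] {P : Measure Ω} {B : ℝ≥0 → Ω → ℝ}
    (hB : IsBrownianReal B P) :
    ∀ᵐ ω ∂P, spanSet (fun t => B t ω) = closure (interior (spanSet (fun t => B t ω))) := by
  filter_upwards [V11330.Span.generic_ae hB] with ω hω
  have h : spanSet (fun t => B t ω) = V11330.Span.SpR (fun t : ℝ => B t.toNNReal ω) := by
    ext u
    constructor
    · rintro ⟨s, t, h1, h2, h3, h4⟩
      refine ⟨s, t, s.2, NNReal.coe_le_coe.2 h1, ?_, ?_, h4⟩
      · exact_mod_cast h2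
      · simpa using h3
    · rintro ⟨s, t, h0, h1, h2, h3, h4⟩
      refine ⟨s.toNNReal, t.toNNReal, Real.toNNReal_le_toNNReal h1, ?_, h3, ?_⟩
      · rw [← Real.toNNReal_one]; exact Real.toNNReal_le_toNNReal h2
      · rw [Real.coe_toNNReal _ h0, Real.coe_toNNReal _ (h0.trans h1)]; exact h4
  rw [h]
  exact hω.closure_interior

end Pool.Agent.Results.MP_367e1f_pr.SpanRegular
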